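import Pool.Agent.Q269.DX.St

/-!
# Project DX of helper269, job INN: the moments over the divisors of almost all polynomials
-/

set_option autoImplicit false
set_option linter.all false

open scoped Classical
open Finset Polynomial Filter Topology

namespace Pool.Agent.Q275.DX

open Pool.Agent.Q269.DX
open Pool.Agent.Q269.DX.Bs (prs ext ze)
open Pool.Agent.Q269.DX.JQ Pool.Agent.Q269.DX.LD
open Pool.Agent.Y164.PS (L L_comm Fam Sf mem_Sf)
open Pool.Agent.Y164.HG (Dat Symp EW Geo Del Tau QQ AT BT kc E2v e2 nb)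
open Pool.Agent.Q269.GR (Dn pr)
open Pool.Agent.Q269.GJ (Ip)
open Pool.Agent.Q269.SX (kD sgD)

/-! ### Sums over the active indices -/

theorem sum_sub {ι A : Type} [Fintype ι] [AddCommMonoid A] (p : ι → Prop) (f : ι → A) :
    ∑ u : {u // p u}, f u.1 = ∑ u, if p u then f u else 0 := by
  rw [← sum_filter]
  exact (Finset.sum_subtype (univ.filter p) (fun x => by simp) f).symm

theorem prod_sub {ι A : Type} [Fintype ι] [CommMonoid A] (p : ι → Prop) (f : ι → A) :
    ∏ u : {u // p u}, f u.1 = ∏ u, if p u then f u else 1 := by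
  rw [← prod_filter]
  exact (Finset.prod_subtype (univ.filter p) (fun x => by simp) f).symm

/-! ### The symbols of a restricted block -/

theorem mem_prs {ι : Type} [Fintype ι] [LinearOrder ι] (x : ι × ι) :
    x ∈ prs (univ : Finset ι) ↔ x.1 < x.2 := by
  rw [prs, mem_filter]
  constructor
  · rintro ⟨_, _, _, h⟩
    exact h (mem_univ _)
  · intro h
    exact ⟨mem_univ _, mem_univ _, ne_of_gt h, fun _ => h⟩

theorem ext_eq {ι : Type} [Fintype ι] [LinearOrder ι] (F : ι → ι → ZMod 2) (hF : ∀ i j, F i j = F j i)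
    (α : prs (univ : Finset ι) → ZMod 2) (hα : ∀ e : prs (univ : Finset ι), α e = F e.1.1 e.1.2)
    {i j : ι} (hij : i ≠ j) : ext α i j = F i j := by
  unfold Pool.Agent.Q269.DX.Bs.ext
  rcases lt_or_gt_of_ne hij with h | h
  · rw [dif_pos ((mem_prs (i, j)).2 h), hα]
  · rw [dif_neg (fun h' => absurd ((mem_prs (i, j)).1 h') (not_lt_of_gt h)),
      dif_pos ⟨(mem_prs (j, i)).2 h, mem_univ _⟩, hα]
    exact hF _ _

section main

variable {k : Type} [Field k] [Fintype k] {R : Type} [Fintype R] {n : R → ℕ} {a : ∀ r, Fin (n r) → k[X]}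
  {N : R → ℕ} (H : ∀ r, Geo (a r) (N r)) {M J : Type} [Fintype M] [Fintype J] (e : J → M → ZMod 2)
  (ρ : M → Option (TQ a) → ZMod 2)

/-- the class of the form `j` at the family `r` -/
noncomputable def sgm (j : J) (r : R) (s : Tau (a r)) : ZMod 2 :=
  lbf e ρ j (some ⟨r, s⟩) + (H r).comb.gg s

/-- the data of the form `j` and the family `r` -/
noncomputable def dd [∀ r, Fact (Odd (n r))] (j : J) (r : R) : Dj (Option (TQ a)) (EW (n r)) :=
  DJ ((H r).dat (sgm H e ρ j r)) (fun s => (⟨r, s⟩ : TQ a))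

/-- the product of the moments -/
noncomputable def xx [∀ r, Fact (Odd (n r))] (μ : J → R → ℕ) {U I : Type} [Fintype U] [Fintype I] [LinearOrder I]
    (b : Bk (Option (TQ a)) U I) (α : prs (univ : Finset I) → ZMod 2) (τ : U ⊕ I → M → ZMod 2) : ℝ :=
  ∏ j, ∏ r, ∏ i ∈ range (μ j r),
      ((Nat.card (Sel (dd H e ρ j r)
        ((sb b (fun u => act e τ j (Sum.inl u)) (fun i => act e τ j (Sum.inr i))).N none
          (ra (fun i => act e τ j (Sum.inr i)) α))
        (sb b (fun u => act e τ j (Sum.inl u)) (fun i => act e τ j (Sum.inr i))).h) : ℝ) /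
          (Nat.card (EW (n r)) : ℝ) - 2 ^ i)

/-- the exceptional symbols -/
def bad [∀ r, Fact (Odd (n r))] (μ : J → R → ℕ) (ε : ℝ) (U I : Type) [Fintype U] [Fintype I] [LinearOrder I]
    (b : Bk (Option (TQ a)) U I) (α : prs (univ : Finset I) → ZMod 2) : Prop :=
  ε * (2 ^ Fintype.card M : ℝ) ^ (Fintype.card U + Fintype.card I) <
    |∑ τ ∈ (univ : Finset (U ⊕ I → M → ZMod 2)).filter (fun τ => lbs b.h τ = ρ),
      (xx H e ρ μ b α τ - ∏ j, ∏ r, (2 : ℝ) ^ (μ j r * (μ j r + 1) / 2))|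

/-- the prime of an index -/
def pri {m : ℕ} (T : Fin m → k[X]) (lg : Finset (Fin m)) : {i // i ∉ lg} ⊕ {i // i ∈ lg} → k[X] :=
  Sum.elim (fun u => T u.1) (fun i => T i.1)

theorem t_ne [∀ r, Fact (Odd (n r))] (r : R) (σ : Tau (a r) → ZMod 2) (s : Tau (a r)) :
    ((H r).dat σ).t s ≠ 0 := by
  intro h
  have h1 : (E2v ((H r).comb.p s) ((H r).comb.q s) : EW (n r)) = 0 := h
  have h2 : e2 ((H r).comb.p s) ((H r).comb.q s) ((H r).comb.p s) = 0 := by
    have := congrArg (fun v : EW (n r) => v.1 ((H r).comb.p s)) h1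
    exact this
  rw [e2, if_pos rfl, if_neg (fun h => (H r).comb.hpq s h.symm), add_zero] at h2
  exact one_ne_zero h2

theorem add_self2 (x : ZMod 2) : x + x = 0 := by
  revert x; decide

/-- the labels of the active indices -/
theorem lab_sum {s U I : Type} [Fintype s] [Fintype U] [Fintype I] (h : U ⊕ I → s → ZMod 2)
    (τ : U ⊕ I → M → ZMod 2) (ρ : M → s → ZMod 2) (hτ : lbs h τ = ρ) (j : J) (o : s) :
    ∑ p : {u // act e τ j (Sum.inl u)} ⊕ {i // act e τ j (Sum.inr i)},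
      Sum.elim (fun u => h (Sum.inl u.1) o) (fun i => h (Sum.inr i.1) o) p = lbf e ρ j o := by
  rw [Fintype.sum_sum_type]
  simp only [Sum.elim_inl, Sum.elim_inr]
  rw [sum_sub (fun u => act e τ j (Sum.inl u)) (fun u => h (Sum.inl u) o),
    sum_sub (fun i => act e τ j (Sum.inr i)) (fun i => h (Sum.inr i) o),
    ← Fintype.sum_sum_type (fun x : U ⊕ I => if act e τ j x then h x o else 0)]
  have h1 : ∀ x : U ⊕ I, (if act e τ j x then h x o else 0) = ∑ i, e j i * (τ x i * h x o) := by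
    intro x
    have h3 : (if act e τ j x then h x o else 0) = (∑ i, e j i * τ x i) * h x o := by
      by_cases hx : ∑ i, e j i * τ x i = 0
      · rw [if_neg (fun h' : act e τ j x => h' hx), hx, zero_mul]
      · have h2 : ∀ c : ZMod 2, c ≠ 0 → c = 1 := by decide
        rw [if_pos (show act e τ j x from hx), h2 _ hx, one_mul]
    rw [h3, sum_mul]
    exact sum_congr rfl fun i _ => mul_assoc _ _ _
  rw [sum_congr rfl fun x _ => h1 x, sum_comm]
  rw [← hτ]
  unfold lbf lbs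
  rw [Finset.sum_apply]
  refine sum_congr rfl fun i _ => ?_
  rw [Pi.smul_apply, Finset.sum_apply, ← mul_sum, smul_eq_mul]
  rfl

/-- the solutions of the system of a subfamily -/
theorem sel_card (h3 : S_SLJ) (h5 : Pool.Agent.Q269.SX.S_KDR) [hF : ∀ r, Fact (Odd (n r))]
    (hm : IsSquare (-1 : k)) (hρ : ∀ j r, lbf e ρ j none + (N r : ZMod 2) = 1) {m : ℕ} (T : Fin m → k[X])
    (lg : Finset (Fin m)) (hT : Fam (Sum.elim T (QT a)))
    (τ : {i // i ∉ lg} ⊕ {i // i ∈ lg} → M → ZMod 2) (hτ : lbs (blk (QT a) lg T).h τ = ρ) (j : J) (r : R) :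
    Nat.card (Sel (dd H e ρ j r)
        ((sb (blk (QT a) lg T) (fun u => act e τ j (Sum.inl u)) (fun i => act e τ j (Sum.inr i))).N none
          (ra (fun i => act e τ j (Sum.inr i)) (alp lg T)))
        (sb (blk (QT a) lg T) (fun u => act e τ j (Sum.inl u)) (fun i => act e τ j (Sum.inr i))).h) =
      kD (H r) (∏ x, if ∑ i, e j i * τ x i = 0 then 1 else pri T lg x) * Nat.card (EW (n r)) := by
  obtain ⟨T', hT'⟩ : ∃ T' : {u // act e τ j (Sum.inl u)} ⊕ {i // act e τ j (Sum.inr i)} → k[X],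
    T' = Sum.elim (fun u => T u.1.1) (fun i => T i.1.1) := ⟨_, rfl⟩
  have hprod : (∏ x, if ∑ i, e j i * τ x i = 0 then 1 else pri T lg x) = ∏ p, T' p := by
    rw [hT', Fintype.prod_sum_type, Fintype.prod_sum_type]
    simp only [Sum.elim_inl, Sum.elim_inr]
    rw [prod_sub (fun u => act e τ j (Sum.inl u)) (fun u => T u.1),
      prod_sub (fun i => act e τ j (Sum.inr i)) (fun i => T i.1)]
    refine congrArg₂ (· * ·) (prod_congr rfl fun u _ => ?_) (prod_congr rfl fun i _ => ?_)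
    · by_cases h : ∑ i, e j i * τ (Sum.inl u) i = 0
      · rw [if_pos h, if_neg (fun h' : act e τ j (Sum.inl u) => h' h)]
      · rw [if_neg h, if_pos (show act e τ j (Sum.inl u) from h)]
        rfl
    · by_cases h : ∑ l, e j l * τ (Sum.inr i) l = 0
      · rw [if_pos h, if_neg (fun h' : act e τ j (Sum.inr i) => h' h)]
      · rw [if_neg h, if_pos (show act e τ j (Sum.inr i) from h)]
        rfl
  have hTi : Function.Injective T := fun x y h =>
    Sum.inl_injective (hT.inj (a₁ := Sum.inl x) (a₂ := Sum.inl y) h)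
  have hex : ∀ p, ∃ i, T' p = T i := by
    rw [hT']
    rintro (u | i)
    · exact ⟨u.1.1, rfl⟩
    · exact ⟨i.1.1, rfl⟩
  have hinj : Function.Injective T' := by
    rw [hT']
    rintro (⟨⟨u, hu⟩, hu'⟩ | ⟨⟨u, hu⟩, hu'⟩) (⟨⟨v, hv⟩, hv'⟩ | ⟨⟨v, hv⟩, hv'⟩) h
    · have h1 : u = v := hTi h
      subst h1
      rfl
    · have h1 : u = v := hTi h
      exact absurd (h1 ▸ hv) hu
    · have h1 : u = v := hTi h
      exact absurd (h1 ▸ hu) hv
    · have h1 : u = v := hTi h
      subst h1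
      rfl
  have hne : ∀ p s, T' p ≠ QQ (a r) s := by
    intro p s h
    obtain ⟨i, hi⟩ := hex p
    have h1 : Sum.elim T (QT a) (Sum.inl i) = Sum.elim T (QT a) (Sum.inr ⟨r, s⟩) := by
      rw [Sum.elim_inl, Sum.elim_inr, ← hi, h]
      rfl
    exact absurd (hT.inj h1) (by simp)
  have hfam : Fam (Sum.elim T' (QQ (a r))) := by
    refine ⟨?_, ?_, hinj.sumElim (H r).fam.inj hne⟩
    · rintro (p | s)
      · obtain ⟨i, hi⟩ := hex p
        rw [Sum.elim_inl, hi]
        exact hT.mon (Sum.inl i)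
      · exact (H r).fam.mon s
    · rintro (p | s)
      · obtain ⟨i, hi⟩ := hex p
        rw [Sum.elim_inl, hi]
        exact hT.irr (Sum.inl i)
      · exact (H r).fam.irr s
  have hlab : ∀ o, ∑ p, lb (QT a) (T' p) o = lbf e ρ j o := by
    intro o
    rw [← lab_sum e (blk (QT a) lg T).h τ ρ hτ j o]
    refine sum_congr rfl fun p _ => ?_
    rw [hT']
    rcases p with u | i <;> rfl
  have hcls : ∀ s, sgm H e ρ j r s + ∑ i, BT (QQ (a r)) T' i s + (H r).comb.gg s = 0 := by
    intro s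
    have h1 : ∑ i, BT (QQ (a r)) T' i s = lbf e ρ j (some ⟨r, s⟩) := (hlab (some ⟨r, s⟩))
    rw [h1, sgm]
    have h2 : ∀ x y : ZMod 2, x + y + x + y = 0 := by decide
    exact h2 _ _
  have hdeg : ∑ i, (((T' i).natDegree : ℕ) : ZMod 2) + (N r : ZMod 2) = 1 := by
    have h1 : ∑ i, (((T' i).natDegree : ℕ) : ZMod 2) = lbf e ρ j none := hlab none
    rw [h1]
    exact hρ j r
  have hs := h3 (EW (n r)) (Tau (a r)) (TQ a) ((H r).dat (sgm H e ρ j r)) (fun s => ⟨r, s⟩)
    (fun s s' h => by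
      have h1 := (Sigma.mk.inj_iff.1 h).2
      exact eq_of_heq h1)
    (t_ne H r _) _ (AT T') (BT (QQ (a r)) T') (fun i => (((T' i).natDegree : ℕ) : ZMod 2))
    (fun i i' => L_comm hm _ _) hcls hdeg
    ((sb (blk (QT a) lg T) (fun u => act e τ j (Sum.inl u)) (fun i => act e τ j (Sum.inr i))).N none
          (ra (fun i => act e τ j (Sum.inr i)) (alp lg T)))
    (sb (blk (QT a) lg T) (fun u => act e τ j (Sum.inl u)) (fun i => act e τ j (Sum.inr i))).h
    (by
      rw [hT']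
      rintro (u | i) (v | l) hne
      · rfl
      · rfl
      · rfl
      · have hne' : i ≠ l := fun h => hne (congrArg Sum.inr h)
        have h1 : ext (ra (fun i => act e τ j (Sum.inr i)) (alp lg T)) i l =
            L (T i.1.1) (T l.1.1) := by
          refine ext_eq (fun i l : {i : {i // i ∈ lg} // act e τ j (Sum.inr i)} => L (T i.1.1) (T l.1.1))
            (fun i l => L_comm hm _ _) _ ?_ hne'
          intro p
          refine ext_eq (fun i l : {i // i ∈ lg} => L (T i.1) (T l.1)) (fun i l => L_comm hm _ _) _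
            (fun q => rfl) ?_
          intro h
          have h2 := (mem_prs p.1).1 p.2
          exact absurd (Subtype.ext h) (ne_of_lt h2)
        show ext (ra (fun i => act e τ j (Sum.inr i)) (alp lg T)) i l + _ = _
        rw [h1]
        show L (T i.1.1) (T l.1.1) + (if l < i then (0 : ZMod 2) * 0 else 0) = L (T i.1.1) (T l.1.1)
        rw [mul_zero, ite_self, add_zero])
    (by
      rw [hT']
      rintro (u | i) <;> rfl)
    (by
      rw [hT']
      rintro (u | i) s <;> rfl)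
  have h6 := ((h5 k (n r) (a r) (N r) (H r)).1 _ T' hfam).2.2 (sgm H e ρ j r) hcls
  rw [hprod, ← h6]
  exact hs

/-! ### The prime divisors of a product -/

theorem pr_mem {m : ℕ} (T : Fin m → k[X]) (hm : ∀ i, (T i).Monic) (hi : ∀ i, Irreducible (T i)) (P : k[X]) :
    P ∈ pr (∏ i, T i) ↔ ∃ i, T i = P := by
  have h0 : (∏ i, T i) ≠ 0 := prod_ne_zero_iff.2 fun i _ => (hm i).ne_zero
  rw [pr, Multiset.mem_toFinset, UniqueFactorizationMonoid.mem_normalizedFactors_iff' h0]
  constructor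
  · rintro ⟨h1, h2, h3⟩
    obtain ⟨i, _, hd⟩ := (h1.prime.dvd_finset_prod_iff _).1 h3
    refine ⟨i, ?_⟩
    have h4 : Associated P (T i) := h1.associated_of_dvd (hi i) hd
    have h5 : normalize P = normalize (T i) := normalize_eq_normalize_iff_associated.2 h4
    rw [h2, (hm i).normalize_eq_self] at h5
    exact h5.symm
  · rintro ⟨i, rfl⟩
    exact ⟨hi i, (hm i).normalize_eq_self, dvd_prod_of_mem _ (mem_univ i)⟩

/-- the prime divisors of a product of primes -/
noncomputable def phi {m : ℕ} (T : Fin m → k[X]) (lg : Finset (Fin m)) (hm : ∀ i, (T i).Monic)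
    (hi : ∀ i, Irreducible (T i)) (hj : Function.Injective T) :
    {i // i ∉ lg} ⊕ {i // i ∈ lg} ≃ Ip (∏ i, T i) :=
  Equiv.ofBijective (fun x => ⟨pri T lg x, (pr_mem T hm hi _).2 (by
    rcases x with u | i
    · exact ⟨u.1, rfl⟩
    · exact ⟨i.1, rfl⟩)⟩) (by
    constructor
    · intro x y h
      have h1 : pri T lg x = pri T lg y := congrArg Subtype.val h
      rcases x with ⟨u, hu⟩ | ⟨u, hu⟩ <;> rcases y with ⟨v, hv⟩ | ⟨v, hv⟩
      · have h2 : u = v := hj h1
        subst h2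
        rfl
      · have h2 : u = v := hj h1
        exact absurd (h2 ▸ hv) hu
      · have h2 : u = v := hj h1
        exact absurd (h2 ▸ hu) hv
      · have h2 : u = v := hj h1
        subst h2
        rfl
    · rintro ⟨P, hP⟩
      obtain ⟨i, rfl⟩ := (pr_mem T hm hi P).1 hP
      by_cases h : i ∈ lg
      · exact ⟨Sum.inr ⟨i, h⟩, rfl⟩
      · exact ⟨Sum.inl ⟨i, h⟩, rfl⟩)

theorem phi_val {m : ℕ} (T : Fin m → k[X]) (lg : Finset (Fin m)) (hm : ∀ i, (T i).Monic)
    (hi : ∀ i, Irreducible (T i)) (hj : Function.Injective T) (x : {i // i ∉ lg} ⊕ {i // i ∈ lg}) :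
    (phi T lg hm hi hj x).1 = pri T lg x := rfl

/-- the property of the polynomials -/
def gg (μ : J → R → ℕ) (ε : ℝ) (D : k[X]) : Prop :=
  ε * (2 ^ Fintype.card M : ℝ) ^ Fintype.card (Ip D) <
    |∑ τ ∈ (univ : Finset (Ip D → M → ZMod 2)).filter (fun τ => lbs (lbD a D) τ = ρ),
      (∏ j, ∏ r, ∏ i ∈ range (μ j r), ((kD (H r) (dv (e j) τ) : ℝ) - 2 ^ i) -
        ∏ j, ∏ r, (2 : ℝ) ^ (μ j r * (μ j r + 1) / 2))|

theorem transport (h3 : S_SLJ) (h5 : Pool.Agent.Q269.SX.S_KDR) [hF : ∀ r, Fact (Odd (n r))]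
    (hm : IsSquare (-1 : k)) (hρ : ∀ j r, lbf e ρ j none + (N r : ZMod 2) = 1) (μ : J → R → ℕ) (ε : ℝ)
    {m : ℕ} (T : Fin m → k[X]) (lg : Finset (Fin m)) (hT : Fam (Sum.elim T (QT a)))
    (hG : gg H e ρ μ ε (∏ i, T i)) : bad H e ρ μ ε _ _ (blk (QT a) lg T) (alp lg T) := by
  have hTm : ∀ i, (T i).Monic := fun i => hT.mon (Sum.inl i)
  have hTi : ∀ i, Irreducible (T i) := fun i => hT.irr (Sum.inl i)
  have hTj : Function.Injective T := fun x y h =>
    Sum.inl_injective (hT.inj (a₁ := Sum.inl x) (a₂ := Sum.inl y) h)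
  obtain ⟨φ, hφ⟩ : ∃ φ : {i // i ∉ lg} ⊕ {i // i ∈ lg} ≃ Ip (∏ i, T i), ∀ x, (φ x).1 = pri T lg x :=
    ⟨phi T lg hTm hTi hTj, phi_val T lg hTm hTi hTj⟩
  have hc : Fintype.card (Ip (∏ i, T i)) = Fintype.card {i // i ∉ lg} + Fintype.card {i // i ∈ lg} := by
    rw [← Fintype.card_sum]
    exact (Fintype.card_congr φ).symm
  unfold gg at hG
  unfold bad
  rw [hc] at hG
  refine lt_of_lt_of_eq hG ?_
  congr 1
  have hlb : ∀ τ : Ip (∏ i, T i) → M → ZMod 2, lbs (blk (QT a) lg T).h (fun x => τ (φ x)) = lbs (lbD a (∏ i, T i)) τ := by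
    intro τ
    funext i o
    unfold lbs
    rw [Finset.sum_apply, Finset.sum_apply, ← Equiv.sum_comp φ]
    refine sum_congr rfl fun x _ => ?_
    rw [Pi.smul_apply, Pi.smul_apply]
    congr 1
    unfold lbD
    rw [hφ]
    rcases x with u | i <;> rfl
  refine sum_equiv (Equiv.arrowCongr φ.symm (Equiv.refl (M → ZMod 2))) ?_ ?_
  · intro τ
    rw [mem_filter, mem_filter]
    have h1 : (Equiv.arrowCongr φ.symm (Equiv.refl (M → ZMod 2))) τ = fun x => τ (φ x) := by
      funext x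
      rfl
    rw [h1, hlb]
    simp only [mem_univ, true_and]
  · intro τ hτ
    have h1 : (Equiv.arrowCongr φ.symm (Equiv.refl (M → ZMod 2))) τ = fun x => τ (φ x) := by
      funext x
      rfl
    have hτ' : lbs (blk (QT a) lg T).h (fun x => τ (φ x)) = ρ := by
      rw [hlb]
      exact (mem_filter.1 hτ).2
    rw [h1]
    congr 1
    unfold xx
    refine prod_congr rfl fun j _ => prod_congr rfl fun r _ => prod_congr rfl fun i _ => ?_
    congr 1
    rw [sel_card H e ρ h3 h5 hm hρ T lg hT (fun x => τ (φ x)) hτ' j r]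
    have h2 : (∏ x, if ∑ i, e j i * (fun x => τ (φ x)) x i = 0 then 1 else pri T lg x) =
        dv (e j) τ := by
      unfold dv
      rw [← Equiv.prod_comp φ]
      refine prod_congr rfl fun x _ => ?_
      rw [hφ]
    rw [h2]
    have h4 : (Nat.card (EW (n r)) : ℝ) ≠ 0 := by
      have : 0 < Nat.card (EW (n r)) := Nat.card_pos
      positivity
    push_cast
    rw [mul_div_assoc, div_self h4, mul_one]

/-- the bad primes form a family -/
theorem fam_QT (hcop : ∀ r r', r ≠ r' → IsCoprime (Del (a r)) (Del (a r'))) (H : ∀ r, Geo (a r) (N r)) :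
    Fam (QT a) := by
  refine ⟨fun x => (H x.1).fam.mon x.2, fun x => (H x.1).fam.irr x.2, ?_⟩
  rintro ⟨r, s⟩ ⟨r', s'⟩ h
  have h0 : QQ (a r) s = QQ (a r') s' := h
  by_cases hr : r = r'
  · subst hr
    have h1 := (H r).fam.inj h0
    rw [h1]
  · exfalso
    have h1 : QQ (a r) s ∣ Del (a r) := ((H r).mem.1 s.2).2.2
    have h2 : QQ (a r) s ∣ Del (a r') := by
      rw [h0]
      exact ((H r').mem.1 s'.2).2.2
    exact ((H r).fam.irr s).not_isUnit ((hcop r r' hr).isUnit_of_dvd' h1 h2)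

end main

theorem card_ge {k : Type} [Field k] [Fintype k] (hm : IsSquare (-1 : k)) (hk : ringChar k ≠ 2) :
    4 ≤ Fintype.card k := by
  have h1 : Fintype.card k % 4 ≠ 3 := FiniteField.isSquare_neg_one_iff.1 hm
  have h2 : Fintype.card k % 2 = 1 := FiniteField.odd_card_of_char_ne_two hk
  have h3 : 1 < Fintype.card k := Fintype.one_lt_card
  omega

/-- **JOB DX-INN.** The moments over the divisors of almost all polynomials. -/
theorem t_INN (h1 : S_ANA) (h2 : S_OKD) (h3 : S_SLJ) (h4 : S_ADJ) (h5 : Pool.Agent.Q269.SX.S_KDR) : S_INN := by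
  intro k _ _ R _ n a N H hm hk hcop M J _ _ e he he0 ρ hρ μ ε hε
  haveI hF : ∀ r, Fact (Odd (n r)) := fun r => ⟨(H r).hn⟩
  haveI hnt : ∀ r, Nontrivial (EW (n r)) := by
    intro r
    have h3 := (H r).hn3
    refine ⟨⟨E2v ⟨0, by omega⟩ ⟨1, by omega⟩, 0, ?_⟩⟩
    intro h
    have h6 : e2 (n := n r) ⟨0, by omega⟩ ⟨1, by omega⟩ ⟨0, by omega⟩ = 0 := by
      have := congrArg (fun v : EW (n r) => v.1 ⟨0, by omega⟩) h
      exact this
    rw [e2, if_pos rfl, if_neg (by simp), add_zero] at h6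
    exact one_ne_zero h6
  have hok : ∀ j r, (dd H e ρ j r).Ok (lbf e ρ j) := by
    intro j r
    refine h2 (EW (n r)) (Tau (a r)) (TQ a) ((H r).dat (sgm H e ρ j r)) (fun s => ⟨r, s⟩) ?_
      (t_ne H r _) (lbf e ρ j) ?_ (hρ j r)
    · intro s s' h
      exact eq_of_heq (Sigma.mk.inj_iff.1 h).2
    · intro s
      show lbf e ρ j (some ⟨r, s⟩) + (H r).comb.gg s + lbf e ρ j (some ⟨r, s⟩) + (H r).comb.gg s = 0
      have h2 : ∀ x y : ZMod 2, x + y + x + y = 0 := by decide
      exact h2 _ _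
  have hadj : ∀ j, Adj2 (V := fun r => EW (n r)) fun r => dd H e ρ j r := by
    intro j
    exact h4 k R n a N H hF (fun r => sgm H e ρ j r)
  have hana := h1 (TQ a) none (fun U I _ _ _ b α => bad H e ρ μ ε U I b α) (by
    intro ε' hε'
    obtain ⟨A, R', hAR⟩ := divm (Option (TQ a)) M J (fun _ => R) (fun _ r => EW (n r)) e he he0 none ρ
      (fun j r => dd H e ρ j r) (fun _ _ => rfl) hok hadj μ (min ε ε') (lt_min hε hε')
    refine ⟨A, R', ?_⟩
    intro U I _ _ _ b hb
    have h6 := hAR U I b hb (fun α τ => xx H e ρ μ b α τ) (fun α τ => rfl)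
    have h7 : Nat.card {α : prs (univ : Finset I) → ZMod 2 // bad H e ρ μ ε U I b α} =
        ((univ : Finset (prs (univ : Finset I) → ZMod 2)).filter fun α => bad H e ρ μ ε U I b α).card :=
      Nat.subtype_card _ (fun α => by rw [mem_filter]; exact ⟨fun h => h.2, fun h => ⟨mem_univ _, h⟩⟩)
    rw [h7]
    refine le_trans ?_ (h6.trans (mul_le_mul_of_nonneg_right (min_le_right _ _) (by positivity)))
    refine Nat.cast_le.2 (card_le_card ?_)
    intro α hα
    rw [mem_filter] at hα ⊢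
    refine ⟨mem_univ _, lt_of_le_of_lt ?_ hα.2⟩
    exact mul_le_mul_of_nonneg_right (min_le_left _ _) (by positivity)) k hk hm (card_ge hm hk)
    (QT a) (fam_QT hcop H) (fun D => gg H e ρ μ ε D)
    (fun m T lg hT hG => transport H e ρ h3 h5 hm hρ μ ε T lg hT hG) ε hε
  filter_upwards [hana] with m hm'
  refine le_trans ?_ hm'
  refine Nat.cast_le.2 (card_le_card ?_)
  intro D hD
  rw [mem_filter] at hD ⊢
  obtain ⟨hD1, hD2⟩ := hD
  rw [Dn, mem_filter, Pool.Agent.H341R2.Sharp.mem_Mon] at hD1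
  obtain ⟨⟨hD3, hD4⟩, hD5, hD6⟩ := hD1
  refine ⟨mem_Sf.2 ⟨hD3, hD4, hD5⟩, ?_, hD2⟩
  rintro ⟨r, s⟩ hd
  have h8 : QQ (a r) s ∣ ∏ r, Del (a r) :=
    (((H r).mem.1 s.2).2.2).trans (dvd_prod_of_mem (fun r => Del (a r)) (mem_univ r))
  exact ((H r).fam.irr s).not_isUnit (hD6.isUnit_of_dvd' hd h8)

end Pool.Agent.Q275.DX
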